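import Pool.Agent.Q216.RK.Stm
import Pool.Agent.NPC.Num

/-!
# Project RK, job S_POLY: the algorithm runs in polynomial time
-/

namespace Pool.Agent.Q210.RK

open Pool.Agent.NPC Pool.Agent.Q216.RK

variable {α β : Type} [TEnc α] [TEnc β]

theorem p_litB {x : α → List Bool} {l : α → ℕ × Bool} (hx : NPC.Poly x) (hl : NPC.Poly l) :
    NPC.Poly (fun a => litB (x a) (l a)) :=
  NPC.Poly.decide_eq (NPC.Poly.getElem? hx (NPC.Poly.fst hl)) (NPC.Poly.some (NPC.Poly.snd hl))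

theorem p_satB {K : α → Cj} {x : α → List Bool} (hK : NPC.Poly K) (hx : NPC.Poly x) :
    NPC.Poly (fun a => satB (K a) (x a)) :=
  NPC.Poly.all (p := fun a l => litB (x a) l) hK (p_litB (hx.comp (NPC.Poly.fst NPC.Poly.id)) (NPC.Poly.snd NPC.Poly.id))

theorem p_cnt {S : α → Smp} {K : α → Cj} {b : α → Bool} (hS : NPC.Poly S) (hK : NPC.Poly K)
    (hb : NPC.Poly b) : NPC.Poly (fun a => cnt (S a) (K a) (b a)) :=
  NPC.Poly.length (NPC.Poly.filter (p := fun a (p : List Bool × Bool) => satB (K a) p.1 && decide (p.2 = b a))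
    hS (NPC.Poly.and (p_satB (hK.comp (NPC.Poly.fst NPC.Poly.id)) (NPC.Poly.fst (NPC.Poly.snd NPC.Poly.id)))
      (NPC.Poly.decide_eq (NPC.Poly.snd (NPC.Poly.snd NPC.Poly.id)) (hb.comp (NPC.Poly.fst NPC.Poly.id)))))

theorem p_lits {n : α → ℕ} (hn : UPoly n) : NPC.Poly (fun a => lits (n a)) :=
  NPC.Poly.flatMap (F := fun _ (j : ℕ) => [(j, false), (j, true)]) hn.range
    (NPC.Poly.cons (NPC.Poly.pair (NPC.Poly.snd NPC.Poly.id) (NPC.Poly.const false))
      (NPC.Poly.cons (NPC.Poly.pair (NPC.Poly.snd NPC.Poly.id) (NPC.Poly.const true)) (NPC.Poly.const [])))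

theorem p_conjs {l : α → Cj} (hl : NPC.Poly l) (m : ℕ) : NPC.Poly (fun a => conjs (l a) m) := by
  induction m with
  | zero => exact NPC.Poly.const [[]]
  | succ m ih =>
    refine NPC.Poly.cons (NPC.Poly.const []) ?_
    exact NPC.Poly.flatMap (F := fun a (K : Cj) => (l a).map (fun x => x :: K)) ih
      (NPC.Poly.map (F := fun (p : α × Cj) x => x :: p.2) (hl.comp (NPC.Poly.fst NPC.Poly.id))
        (NPC.Poly.cons (NPC.Poly.snd NPC.Poly.id) (NPC.Poly.snd (NPC.Poly.fst NPC.Poly.id))))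

theorem p_hasVar {K : α → Cj} {j : α → ℕ} (hK : NPC.Poly K) (hj : NPC.Poly j) :
    NPC.Poly (fun a => hasVar (K a) (j a)) :=
  NPC.Poly.any (p := fun a (l : ℕ × Bool) => decide (l.1 = j a)) hK
    (NPC.Poly.decide_eq (NPC.Poly.fst (NPC.Poly.snd NPC.Poly.id)) (hj.comp (NPC.Poly.fst NPC.Poly.id)))

theorem p_freshB {p K : α → Cj} (hp : NPC.Poly p) (hK : NPC.Poly K) :
    NPC.Poly (fun a => freshB (p a) (K a)) := by
  refine NPC.Poly.all (p := fun a (l : ℕ × Bool) => !(hasVar (p a) l.1) &&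
    decide (((K a).filter (fun m => decide (m.1 = l.1))).length ≤ 1)) hK ?_
  refine NPC.Poly.and (NPC.Poly.not (p_hasVar (hp.comp (NPC.Poly.fst NPC.Poly.id)) (NPC.Poly.fst (NPC.Poly.snd NPC.Poly.id)))) ?_
  refine NPC.Poly.decide_le (NPC.Poly.length ?_) (NPC.Poly.const 1)
  exact NPC.Poly.filter (p := fun (x : α × (ℕ × Bool)) (m : ℕ × Bool) => decide (m.1 = x.2.1))
    (hK.comp (NPC.Poly.fst NPC.Poly.id))
    (NPC.Poly.decide_eq (NPC.Poly.fst (NPC.Poly.snd NPC.Poly.id)) (NPC.Poly.fst (NPC.Poly.snd (NPC.Poly.fst NPC.Poly.id))))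

theorem p_adm {S : α → Smp} {C : α → List Cj} {p : α → Cj} (hS : NPC.Poly S) (hC : NPC.Poly C)
    (hp : NPC.Poly p) : NPC.Poly (fun a => adm (S a) (C a) (p a)) := by
  refine NPC.Poly.head? (NPC.Poly.filter (p := fun a (K : Cj) => freshB (p a) K &&
    decide (cnt (S a) (p a ++ K) false = 0)) hC ?_)
  have h1 : NPC.Poly (fun x : α × Cj => p x.1) := hp.comp (NPC.Poly.fst NPC.Poly.id)
  refine NPC.Poly.and (p_freshB h1 (NPC.Poly.snd NPC.Poly.id)) ?_
  exact NPC.Poly.decide_eq (p_cnt (hS.comp (NPC.Poly.fst NPC.Poly.id)) (NPC.Poly.append h1 (NPC.Poly.snd NPC.Poly.id))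
    (NPC.Poly.const false)) (NPC.Poly.const 0)

theorem p_stp {S : α → Smp} {C : α → List Cj} {x : α → List Bool} {p : α → Cj} (hS : NPC.Poly S)
    (hC : NPC.Poly C) (hx : NPC.Poly x) (hp : NPC.Poly p) :
    NPC.Poly (fun a => stp (adm (S a) (C a)) (x a) (p a)) := by
  have h1 : NPC.Poly (fun y : α × Cj => p y.1 ++ y.2.map (fun l => (l.1, (x y.1).getD l.1 false))) := by
    refine NPC.Poly.append (hp.comp (NPC.Poly.fst NPC.Poly.id)) ?_
    refine NPC.Poly.map (F := fun (y : α × Cj) (l : ℕ × Bool) => (l.1, (x y.1).getD l.1 false))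
      (NPC.Poly.snd NPC.Poly.id) ?_
    exact NPC.Poly.pair (NPC.Poly.fst (NPC.Poly.snd NPC.Poly.id))
      (NPC.Poly.getD (d := fun _ => false) (hx.comp (NPC.Poly.fst (NPC.Poly.fst NPC.Poly.id)))
        (NPC.Poly.fst (NPC.Poly.snd NPC.Poly.id)) (NPC.Poly.const false))
  refine (NPC.Poly.optCases (g := p) (h := fun a (K : Cj) => p a ++ K.map (fun l => (l.1, (x a).getD l.1 false)))
    (p_adm hS hC hp) hp h1).congr fun a => ?_
  unfold stp
  cases adm (S a) (C a) (p a) <;> rfl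

/-- The size of the context. -/
theorem sz_map_le (x : List Bool) (K : Cj) :
    sz (K.map (fun l => (l.1, x.getD l.1 false))) ≤ 3 * sz K := by
  induction K with
  | nil => simp
  | cons l K ih =>
    obtain ⟨j, b⟩ := l
    have h1 := sz_bool_le (x.getD j false)
    have h2 := sz_pos b
    rw [List.map_cons, sz_list_cons, sz_list_cons, sz_pair, sz_pair]
    simp only at ih ⊢
    omega

theorem sz_stp_le (S : Smp) (C : List Cj) (x : List Bool) (p : Cj) :
    sz (stp (adm S C) x p) ≤ sz p + 3 * sz C := by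
  unfold stp
  cases h : adm S C p with
  | none => simp
  | some K =>
    have h1 : K ∈ C := by
      unfold adm at h
      exact (List.mem_filter.1 (List.mem_of_head? h)).1
    have h2 := sz_le_of_mem h1
    have h3 := sz_map_le x K
    have h4 := sz_append p (K.map (fun l => (l.1, x.getD l.1 false)))
    simp only
    omega

theorem sz_path_le (S : Smp) (C : List Cj) (x : List Bool) (t : ℕ) :
    sz ((stp (adm S C) x)^[t] []) ≤ 1 + t * (3 * sz C) := by
  induction t with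
  | zero => simp
  | succ t ih =>
    rw [Function.iterate_succ_apply']
    have h := sz_stp_le S C x ((stp (adm S C) x)^[t] [])
    rw [Nat.succ_mul]
    omega

theorem p_path {S : α → Smp} {C : α → List Cj} {x : α → List Bool} {t : α → ℕ} (hS : NPC.Poly S)
    (hC : NPC.Poly C) (hx : NPC.Poly x) (ht : UPoly t) :
    NPC.Poly (fun a => path (adm (S a) (C a)) (x a) (t a)) := by
  obtain ⟨r, hr⟩ := NPC.Poly.sz_le ht
  obtain ⟨q, hq⟩ := hC.sz_le
  refine (NPC.Poly.iterLen (s := fun _ => ([] : Cj)) (F := fun a p => stp (adm (S a) (C a)) (x a) p) ht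
    (NPC.Poly.const []) (p_stp (hS.comp (NPC.Poly.fst NPC.Poly.id)) (hC.comp (NPC.Poly.fst NPC.Poly.id))
      (hx.comp (NPC.Poly.fst NPC.Poly.id)) (NPC.Poly.snd NPC.Poly.id))
    (Polynomial.C 1 + r * (Polynomial.C 3 * q)) ?_).congr fun a => ?_
  · intro a k hk
    refine (sz_path_le _ _ _ _).trans ?_
    have h1 := length_lt_sz (List.replicate (t a) ())
    have h2 := hr a
    have h3 := hq a
    simp only [Polynomial.eval_add, Polynomial.eval_mul, Polynomial.eval_C]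
    have h4 : k ≤ r.eval (sz a) := by omega
    have h5 : 3 * sz (C a) ≤ 3 * q.eval (sz a) := by omega
    have h6 := Nat.mul_le_mul h4 h5
    omega
  · unfold path
    rw [List.length_replicate]

theorem p_agr {S : α → Smp} {K : α → Cj} {i j : α → ℕ} {b : α → Bool} (hS : NPC.Poly S) (hK : NPC.Poly K)
    (hi : NPC.Poly i) (hj : NPC.Poly j) (hb : NPC.Poly b) :
    NPC.Poly (fun a => agr (S a) (K a) (i a) (j a) (b a)) := by
  refine NPC.Poly.add (p_cnt hS (NPC.Poly.append hK (NPC.Poly.cons (NPC.Poly.pair hi (NPC.Poly.const true))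
    (NPC.Poly.cons (NPC.Poly.pair hj hb) (NPC.Poly.const [])))) (NPC.Poly.const true)) ?_
  exact p_cnt hS (NPC.Poly.append hK (NPC.Poly.cons (NPC.Poly.pair hi (NPC.Poly.const false))
    (NPC.Poly.cons (NPC.Poly.pair hj (NPC.Poly.not hb)) (NPC.Poly.const [])))) (NPC.Poly.const true)

theorem p_adf {m n : α → ℕ} (hm : NPC.Poly m) (hn : NPC.Poly n) : NPC.Poly (fun a => adf (m a) (n a)) :=
  NPC.Poly.add (NPC.Poly.sub hm hn) (NPC.Poly.sub hn hm)

/-- The count with one more literal. -/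
theorem p_cnt1 {S : α → Smp} {p Q : α → Cj} {i : α → ℕ} (hS : NPC.Poly S) (hp : NPC.Poly p) (hQ : NPC.Poly Q)
    (hi : NPC.Poly i) (c : Bool) : NPC.Poly (fun a => cnt (S a) (p a ++ Q a ++ [(i a, c)]) true) :=
  p_cnt hS (NPC.Poly.append (NPC.Poly.append hp hQ) (NPC.Poly.cons (NPC.Poly.pair hi (NPC.Poly.const c))
    (NPC.Poly.const []))) (NPC.Poly.const true)

theorem p_lam {S : α → Smp} {n : α → ℕ} {p Q : α → Cj} {i : α → ℕ} (hS : NPC.Poly S) (hn : UPoly n)
    (hp : NPC.Poly p) (hQ : NPC.Poly Q) (hi : NPC.Poly i) :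
    NPC.Poly (fun a => lam (S a) (n a) (p a) (Q a) (i a)) := by
  have gS : NPC.Poly (fun y : α × ℕ => S y.1) := hS.comp (NPC.Poly.fst NPC.Poly.id)
  have gp : NPC.Poly (fun y : α × ℕ => p y.1) := hp.comp (NPC.Poly.fst NPC.Poly.id)
  have gQ : NPC.Poly (fun y : α × ℕ => Q y.1) := hQ.comp (NPC.Poly.fst NPC.Poly.id)
  have gi : NPC.Poly (fun y : α × ℕ => i y.1) := hi.comp (NPC.Poly.fst NPC.Poly.id)
  have gj : NPC.Poly (fun y : α × ℕ => y.2) := NPC.Poly.snd NPC.Poly.id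
  have gpQ : NPC.Poly (fun y : α × ℕ => p y.1 ++ Q y.1) := NPC.Poly.append gp gQ
  refine NPC.Poly.map (F := fun a (j : ℕ) => (j, decide (decide (cnt (S a) (p a ++ Q a ++ [(i a, false)]) true <
      cnt (S a) (p a ++ Q a ++ [(i a, true)]) true) =
    decide (agr (S a) (p a ++ Q a) (i a) j false < agr (S a) (p a ++ Q a) (i a) j true)))) ?_ ?_
  · refine NPC.Poly.filter (p := fun a (j : ℕ) => !(decide (j = i a)) && !(hasVar (p a) j) &&
      decide (adf (cnt (S a) (p a ++ Q a ++ [(i a, true)]) true)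
        (cnt (S a) (p a ++ Q a ++ [(i a, false)]) true) ≤
        2 * adf (agr (S a) (p a ++ Q a) (i a) j true) (agr (S a) (p a ++ Q a) (i a) j false)))
      hn.range ?_
    refine NPC.Poly.and (NPC.Poly.and (NPC.Poly.not (NPC.Poly.decide_eq gj gi)) (NPC.Poly.not (p_hasVar gp gj))) ?_
    exact NPC.Poly.decide_le (p_adf (p_cnt1 gS gp gQ gi true) (p_cnt1 gS gp gQ gi false))
      (NPC.Poly.mul (NPC.Poly.const 2) (p_adf (p_agr gS gpQ gi gj (NPC.Poly.const true))
        (p_agr gS gpQ gi gj (NPC.Poly.const false))))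
  · refine NPC.Poly.pair gj (NPC.Poly.decide_eq (NPC.Poly.decide_lt (p_cnt1 gS gp gQ gi false)
      (p_cnt1 gS gp gQ gi true)) ?_)
    exact NPC.Poly.decide_lt (p_agr gS gpQ gi gj (NPC.Poly.const false)) (p_agr gS gpQ gi gj (NPC.Poly.const true))

theorem p_cds {S : α → Smp} {n B : α → ℕ} {p Q : α → Cj} {i : α → ℕ} (hS : NPC.Poly S) (hn : UPoly n)
    (hB : NPC.Poly B) (hp : NPC.Poly p) (hQ : NPC.Poly Q) (hi : NPC.Poly i) :
    NPC.Poly (fun a => cds (S a) (n a) (B a) (p a) (Q a) (i a)) := by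
  have hlam := p_lam hS hn hp hQ hi
  refine NPC.Poly.ite (NPC.Poly.decide_le (NPC.Poly.length hlam) hB) ?_ (NPC.Poly.const [])
  refine NPC.Poly.map (F := fun a (y : List Bool × Bool) => p a ++ (i a,
    decide (cnt (S a) (p a ++ Q a ++ [(i a, false)]) true <
      cnt (S a) (p a ++ Q a ++ [(i a, true)]) true)) ::
      (lam (S a) (n a) (p a) (Q a) (i a)).filter (fun l => litB y.1 l)) hS ?_
  have gS : NPC.Poly (fun y : α × (List Bool × Bool) => S y.1) := hS.comp (NPC.Poly.fst NPC.Poly.id)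
  have gp : NPC.Poly (fun y : α × (List Bool × Bool) => p y.1) := hp.comp (NPC.Poly.fst NPC.Poly.id)
  have gQ : NPC.Poly (fun y : α × (List Bool × Bool) => Q y.1) := hQ.comp (NPC.Poly.fst NPC.Poly.id)
  have gi : NPC.Poly (fun y : α × (List Bool × Bool) => i y.1) := hi.comp (NPC.Poly.fst NPC.Poly.id)
  refine NPC.Poly.append gp (NPC.Poly.cons (NPC.Poly.pair gi (NPC.Poly.decide_lt (p_cnt1 gS gp gQ gi false)
    (p_cnt1 gS gp gQ gi true))) ?_)
  exact NPC.Poly.filter (p := fun (y : α × (List Bool × Bool)) (l : ℕ × Bool) => litB y.2.1 l)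
    (hlam.comp (NPC.Poly.fst NPC.Poly.id))
    (p_litB (NPC.Poly.fst (NPC.Poly.snd (NPC.Poly.fst NPC.Poly.id))) (NPC.Poly.snd NPC.Poly.id))

theorem p_dimS {S : α → Smp} (hS : NPC.Poly S) : UPoly (fun a => dimS (S a)) := by
  refine UPoly.length ?_
  exact NPC.Poly.fst (NPC.Poly.head?_getD hS ([], false))

theorem p_ctxs {S : α → Smp} {t : α → ℕ} (hS : NPC.Poly S) (m : ℕ) (ht : UPoly t) :
    NPC.Poly (fun a => ctxs (S a) m (t a)) := by
  refine NPC.Poly.map (F := fun a (p : List Bool × Bool) =>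
    path (adm (S a) (conjs (lits (dimS (S a))) m)) p.1 (t a)) hS ?_
  exact p_path (hS.comp (NPC.Poly.fst NPC.Poly.id))
    ((p_conjs (p_lits (p_dimS hS)) m).comp (NPC.Poly.fst NPC.Poly.id)) (NPC.Poly.fst (NPC.Poly.snd NPC.Poly.id))
    (ht.comp (NPC.Poly.fst NPC.Poly.id))

theorem p_cands {S : α → Smp} {t B : α → ℕ} (hS : NPC.Poly S) (m k : ℕ) (ht : UPoly t)
    (hB : NPC.Poly B) : NPC.Poly (fun a => cands (S a) m (t a) k (B a)) := by
  refine NPC.Poly.flatMap (F := fun a (p : Cj) => (conjs (lits (dimS (S a))) k).flatMap (fun Q =>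
    (List.range (dimS (S a))).flatMap (fun i => cds (S a) (dimS (S a)) (B a) p Q i)))
    (p_ctxs hS m ht) ?_
  refine NPC.Poly.flatMap (F := fun (y : α × Cj) (Q : Cj) =>
    (List.range (dimS (S y.1))).flatMap (fun i => cds (S y.1) (dimS (S y.1)) (B y.1) y.2 Q i))
    ((p_conjs (p_lits (p_dimS hS)) k).comp (NPC.Poly.fst NPC.Poly.id)) ?_
  refine NPC.Poly.flatMap (F := fun (y : (α × Cj) × Cj) (i : ℕ) =>
    cds (S y.1.1) (dimS (S y.1.1)) (B y.1.1) y.1.2 y.2 i) ?_ ?_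
  · exact UPoly.range ((p_dimS hS).comp (NPC.Poly.fst (NPC.Poly.fst NPC.Poly.id)))
  · have e : NPC.Poly (fun y : ((α × Cj) × Cj) × ℕ => y.1.1.1) := NPC.Poly.fst (NPC.Poly.fst (NPC.Poly.fst NPC.Poly.id))
    exact p_cds (hS.comp e) ((p_dimS hS).comp e) (hB.comp e) (NPC.Poly.snd (NPC.Poly.fst (NPC.Poly.fst NPC.Poly.id)))
      (NPC.Poly.snd (NPC.Poly.fst NPC.Poly.id)) (NPC.Poly.snd NPC.Poly.id)

theorem u_size {n : α → ℕ} (hn : NPC.Poly n) : UPoly (fun a => Nat.size (n a)) := by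
  refine (UPoly.length (NPC.Poly.natBits hn)).congr fun a => ?_
  simp only [Nat.size_eq_bits_len]

/-- JOB S_POLY. -/
theorem poly : S_POLY := by
  intro k m
  have hS : NPC.Poly (fun a : List Unit × Smp => a.2) := NPC.Poly.snd NPC.Poly.id
  have he : NPC.Poly (fun a : List Unit × Smp => a.1.length) := NPC.Poly.length (NPC.Poly.fst NPC.Poly.id)
  have ht : UPoly (fun a : List Unit × Smp => tT m a.1.length) :=
    UPoly.mul (UPoly.const (2 ^ m)) (u_size (NPC.Poly.mul (NPC.Poly.const 8) he))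
  have hd : NPC.Poly (fun a : List Unit × Smp => dimS a.2) := (p_dimS hS).toPoly
  have hB : NPC.Poly (fun a : List Unit × Smp => bB k (dimS a.2) a.1.length) := by
    refine NPC.Poly.mul (NPC.Poly.const 2) (NPC.Poly.add (u_size ?_).toPoly (NPC.Poly.const k))
    exact NPC.Poly.mul (NPC.Poly.mul (NPC.Poly.const 8) (NPC.Poly.succ (NPC.Poly.mul (NPC.Poly.const k) hd))) he
  refine NPC.Poly.append ?_ ?_
  · refine NPC.Poly.filter (p := fun (a : List Unit × Smp) (p : Cj) =>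
      decide (8 * a.1.length * cnt a.2 p false ≤ cnt a.2 p false + cnt a.2 p true))
      (p_ctxs hS m ht) ?_
    have g0 : NPC.Poly (fun y : (List Unit × Smp) × Cj => cnt y.1.2 y.2 false) :=
      p_cnt (NPC.Poly.snd (NPC.Poly.fst NPC.Poly.id)) (NPC.Poly.snd NPC.Poly.id) (NPC.Poly.const false)
    have g1 : NPC.Poly (fun y : (List Unit × Smp) × Cj => cnt y.1.2 y.2 true) :=
      p_cnt (NPC.Poly.snd (NPC.Poly.fst NPC.Poly.id)) (NPC.Poly.snd NPC.Poly.id) (NPC.Poly.const true)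
    exact NPC.Poly.decide_le (NPC.Poly.mul (NPC.Poly.mul (NPC.Poly.const 8) (he.comp (NPC.Poly.fst NPC.Poly.id))) g0)
      (NPC.Poly.add g0 g1)
  · refine NPC.Poly.filter (p := fun (a : List Unit × Smp) (K : Cj) => decide (cnt a.2 K false = 0))
      (p_cands hS m k ht hB) ?_
    exact NPC.Poly.decide_eq (p_cnt (NPC.Poly.snd (NPC.Poly.fst NPC.Poly.id)) (NPC.Poly.snd NPC.Poly.id)
      (NPC.Poly.const false)) (NPC.Poly.const 0)

end Pool.Agent.Q210.RK
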